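import Pool.Agent.H88.OCS.Stmts
import Pool.Agent.H14.OC.Tim

/-!
# Row TIM of theorem OCS: time distances from (H1)
-/

set_option autoImplicit false

namespace Pool.OCS.T4

open Finset Real
open Pool.Agent.H49.Ent Pool.Agent.H32.Dense Pool.STK Pool.KAF Pool.OCS

/-- Lines and times only, as data of theorem OC. -/
noncomputable def toOC (d : Dat) : Pool.OC.Dat where
  Om := d.Om
  Lam := d.Lam
  Tau := d.Tau
  P := d.P
  L := d.L
  T := d.T
  y := fun _ => 0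
  om := fun _ => 0
  be := fun _ => 0
  N := fun _ => 0
  th := d.th
  S := fun _ => 0
  X := d.X

theorem toOC_OK {d : Dat} (h1 : IsLaw d.P) (h2 : ∀ t, 0 ≤ d.th t ∧ d.th t < 1) :
    (toOC d).OK 0 where
  law := h1
  hy := fun ω _ => by simp [Pool.OC.Dat.yR, toOC]
  hom := fun ω _ => by simp [Pool.OC.Dat.omR, toOC]
  hbe := fun ω _ => by simp [Pool.OC.Dat.beR, toOC]
  hN := fun _ _ _ _ _ => rfl
  hth := h2
  hS := fun t => by simp [toOC]
  hZ := fun ω ω' _ _ _ => by simp [Pool.OC.Dat.ZR, Pool.OC.Dat.yR, Pool.OC.Dat.omR,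
    Pool.OC.Dat.beR, toOC]

theorem tim_thm : TIMStmt := by
  intro ε hε
  obtain ⟨k', h⟩ := Pool.OC.tim_thm ε hε
  refine ⟨k', fun κ₃ hκ₃ => ?_⟩
  obtain ⟨ι, X₀, hι, h⟩ := h κ₃ hκ₃
  refine ⟨ι, X₀, hι, ?_⟩
  intro d A hd hX hH1
  have h1 := h (toOC d) 0 (toOC_OK hd.law hd.hth) hX ⟨hH1.1, hH1.2⟩
  refine ⟨fun i i' hi hi' => h1.1 i i' ?_ hi', fun a b hab hb => h1.2 a b ?_ hb⟩
  · exact le_trans (Nat.add_le_add_left (Nat.div_le_self _ _) _) hi
  · exact le_trans (Nat.add_le_add_left (Nat.div_le_self _ _) _) hab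

end Pool.OCS.T4
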